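import Pool.Agent.Helper95_PSC.Stmts

set_option autoImplicit false

/-!
The moment identity: a translation relation between the tiles gives a relation between the
moment series.
-/

namespace Pool.Agent.PSC.H70

open Pool.Agent.Helper40_Pisot MeasureTheory Pool.Agent.PSC

variable {m : ℕ}

lemma W_alpha {M : Matrix (Fin (m + 1)) (Fin (m + 1)) ℤ} {r : ℝ} {α l : Fin (m + 1) → ℝ}
    (hpf : PFData M r α l) {β : ℂ} (hβ : β ≠ (r : ℂ)) {W : Fin (m + 1) → ℂ}
    (hW : LeftEig M β W) : ∑ i, W i * (α i : ℂ) = 0 := by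
  have h1 : β * ∑ i, W i * (α i : ℂ) = r * ∑ i, W i * (α i : ℂ) := by
    calc β * ∑ j, W j * (α j : ℂ) = ∑ j, (∑ i, W i * (M i j : ℂ)) * (α j : ℂ) := by
          rw [Finset.mul_sum]
          exact Finset.sum_congr rfl fun j _ => by rw [hW j]; ring
      _ = ∑ i, W i * ∑ j, (M i j : ℂ) * (α j : ℂ) := by
          simp_rw [Finset.sum_mul, Finset.mul_sum]
          rw [Finset.sum_comm]
          exact Finset.sum_congr rfl fun i _ => Finset.sum_congr rfl fun j _ => by ring
      _ = r * ∑ i, W i * (α i : ℂ) := by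
          rw [Finset.mul_sum]
          refine Finset.sum_congr rfl fun i _ => ?_
          have h3 := hpf.α_eig i
          have h2 : ∑ j, (M i j : ℂ) * (α j : ℂ) = (r : ℂ) * (α i : ℂ) := by
            exact_mod_cast congrArg (fun t : ℝ => (t : ℂ)) h3
          rw [h2]; ring
  have h2 : (β - r) * ∑ i, W i * (α i : ℂ) = 0 := by rw [sub_mul, h1, sub_self]
  rcases mul_eq_zero.1 h2 with h | h
  · exact absurd (sub_eq_zero.1 h) hβ
  · exact h

lemma wE_pr {α : Fin (m + 1) → ℝ} (hs : ∑ i, α i = 1) {W : Fin (m + 1) → ℂ}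
    (hWα : ∑ i, W i * (α i : ℂ) = 0) (v : Lat m) : wE W (pr α v) = pair W v := by
  have e1 : ∀ g : Fin (m + 1) → ℂ, ∑ i : Fin m, (W i.castSucc - W (Fin.last m)) * g i.castSucc =
      ∑ i, W i * g i - W (Fin.last m) * ∑ i, g i := by
    intro g
    rw [Fin.sum_univ_castSucc, Fin.sum_univ_castSucc (f := g)]
    rw [mul_add, Finset.mul_sum]
    simp_rw [sub_mul]
    rw [Finset.sum_sub_distrib]; ring
  have hs' : ∑ i, (α i : ℂ) = 1 := by exact_mod_cast congrArg (fun t : ℝ => (t : ℂ)) hs
  unfold wE pr pair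
  have e2 : ∀ i : Fin m, (W i.castSucc - W (Fin.last m)) *
      (((v i.castSucc : ℝ) - (∑ j, (v j : ℝ)) * α i.castSucc : ℝ) : ℂ) =
      (W i.castSucc - W (Fin.last m)) * ((v i.castSucc : ℤ) : ℂ) -
      (∑ j, ((v j : ℤ) : ℂ)) * ((W i.castSucc - W (Fin.last m)) * (α i.castSucc : ℂ)) := by
    intro i
    push_cast
    ring
  rw [Finset.sum_congr rfl fun i _ => e2 i, Finset.sum_sub_distrib, ← Finset.mul_sum,
    e1 (fun i => ((v i : ℤ) : ℂ)), e1 (fun i => (α i : ℂ)), hWα, hs']
  ring

lemma wE_add (W : Fin (m + 1) → ℂ) (y z : E m) : wE W (y + z) = wE W y + wE W z := by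
  unfold wE
  rw [← Finset.sum_add_distrib]
  refine Finset.sum_congr rfl fun i _ => ?_
  rw [Pi.add_apply]
  push_cast
  ring

lemma wE_cont (W : Fin (m + 1) → ℂ) : Continuous (wE W : E m → ℂ) := by
  unfold wE
  fun_prop

lemma sum_antidiag (p w : ℂ) (n : ℕ) :
    ∑ ij ∈ Finset.HasAntidiagonal.antidiagonal n, (p ^ ij.1 / (ij.1.factorial : ℂ)) *
      (w ^ ij.2 / (ij.2.factorial : ℂ)) = (p + w) ^ n / (n.factorial : ℂ) := by
  rw [(Commute.all p w).add_pow', Finset.sum_div]
  refine Finset.sum_congr rfl fun ij hij => ?_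
  have h1 : ij.1 + ij.2 = n := Finset.HasAntidiagonal.mem_antidiagonal.1 hij
  subst h1
  have h2 := Nat.add_choose_mul_factorial_mul_factorial ij.1 ij.2
  rw [← Nat.choose_symm_add] at h2
  have h3 : (((ij.1 + ij.2).choose ij.1 : ℕ) : ℂ) * (ij.1.factorial : ℂ) * (ij.2.factorial : ℂ) =
      ((ij.1 + ij.2).factorial : ℂ) := by exact_mod_cast h2
  have n1 : (ij.1.factorial : ℂ) ≠ 0 := by exact_mod_cast ij.1.factorial_ne_zero
  have n2 : (ij.2.factorial : ℂ) ≠ 0 := by exact_mod_cast ij.2.factorial_ne_zero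
  have n3 : ((ij.1 + ij.2).factorial : ℂ) ≠ 0 := by exact_mod_cast (ij.1 + ij.2).factorial_ne_zero
  rw [nsmul_eq_mul, ← h3]
  have n4 : (((ij.1 + ij.2).choose ij.1 : ℕ) : ℂ) ≠ 0 := by
    intro h
    rw [h] at h3
    apply n3
    rw [← h3]
    ring
  field_simp

lemma integrableOn_pow (W : Fin (m + 1) → ℂ) {S : Set (E m)} (hS : IsCompact S) (p : ℂ) (n : ℕ) :
    IntegrableOn (fun y => (p + wE W y) ^ n / (n.factorial : ℂ)) S := by
  have h1 := wE_cont (m := m) W
  have h2 : Continuous (fun y : E m => (p + wE W y) ^ n / (n.factorial : ℂ)) :=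
    ((continuous_const.add h1).pow n).div_const _
  exact h2.continuousOn.integrableOn_compact hS

lemma coeff_eS (c : ℂ) (n : ℕ) :
    PowerSeries.coeff n (eS c : PowerSeries ℂ) = c ^ n / (n.factorial : ℂ) := by
  unfold eS
  rw [PowerSeries.coeff_rescale, PowerSeries.coeff_exp]
  simp [div_eq_mul_inv]

/-- The moment of a translate. -/
lemma coeff_mul_Gam (W : Fin (m + 1) → ℂ) {S : Set (E m)} (hS : IsCompact S) (c p : ℂ) (n : ℕ) :
    PowerSeries.coeff n (PowerSeries.C c * eS p * Gam W S) =
      c * ∫ y in S, (p + wE W y) ^ n / (n.factorial : ℂ) := by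
  rw [mul_assoc, PowerSeries.coeff_C_mul, PowerSeries.coeff_mul]
  congr 1
  have h1 : ∀ ij ∈ Finset.HasAntidiagonal.antidiagonal n, PowerSeries.coeff ij.1 (eS p : PowerSeries ℂ) *
      PowerSeries.coeff ij.2 (Gam W S) =
      ∫ y in S, (p ^ ij.1 / (ij.1.factorial : ℂ)) * ((wE W y) ^ ij.2 / (ij.2.factorial : ℂ)) := by
    intro ij _
    rw [coeff_eS, Gam, PowerSeries.coeff_mk, integral_const_mul]
  rw [Finset.sum_congr rfl h1, ← integral_finsetSum]
  · refine integral_congr_ae (Filter.Eventually.of_forall fun y => ?_)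
    exact sum_antidiag p (wE W y) n
  · intro ij _
    apply Integrable.const_mul
    have h5 := integrableOn_pow W hS 0 ij.2
    simp only [zero_add] at h5
    exact h5

/-- The integral against a translate of the indicator function. -/
lemma integral_ind (W : Fin (m + 1) → ℂ) {S : Set (E m)} (hS : IsCompact S) (p : E m) (n : ℕ) :
    Integrable (fun y => ((ind S (y - p) : ℝ) : ℂ) * ((wE W y) ^ n / (n.factorial : ℂ))) ∧
    ∫ y, ((ind S (y - p) : ℝ) : ℂ) * ((wE W y) ^ n / (n.factorial : ℂ)) =
      ∫ y in S, (wE W p + wE W y) ^ n / (n.factorial : ℂ) := by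
  have hm : MeasurableSet S := hS.measurableSet
  set F : E m → ℂ := fun z => S.indicator (fun y => (wE W p + wE W y) ^ n / (n.factorial : ℂ)) z
    with hF
  have e : ∀ y, ((ind S (y - p) : ℝ) : ℂ) * ((wE W y) ^ n / (n.factorial : ℂ)) = F (y - p) := by
    intro y
    simp only [hF, ind]
    by_cases h : y - p ∈ S
    · rw [Set.indicator_of_mem h, Set.indicator_of_mem h]
      have : wE W y = wE W p + wE W (y - p) := by
        rw [← wE_add]
        congr 1
        abel
      rw [← this]
      simp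
    · rw [Set.indicator_of_notMem h, Set.indicator_of_notMem h]
      simp
  have hFi : Integrable F := by
    rw [hF]
    exact (integrable_indicator_iff hm).2 (integrableOn_pow W hS (wE W p) n)
  constructor
  · have h2 : Integrable (fun y => F (y - p)) := hFi.comp_sub_right p
    exact h2.congr (Filter.Eventually.of_forall fun y => (e y).symm)
  · rw [integral_congr_ae (Filter.Eventually.of_forall e)]
    rw [integral_sub_right_eq_self (fun y => F y) p]
    rw [hF, integral_indicator hm]

theorem mom : TileStmt → MomStmt := by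
  intro hT m σ M r α l a0 x0 hD β hβ hβr W hW
  obtain ⟨hc, -, -, -, -⟩ := hT m σ M r α l a0 x0 hD
  have hWα := W_alpha hD.pf hβr hW
  have hpr := wE_pr (α := α) hD.pf.α_sum hWα
  constructor
  · intro a
    rw [Gam, ← PowerSeries.coeff_zero_eq_constantCoeff_apply, PowerSeries.coeff_mk]
    simp [Measure.real]
  · intro x hx
    ext n
    rw [map_sum, map_zero]
    have h1 : ∀ a, PowerSeries.coeff n (evS W (x a) * Gam W (tile σ α x0 ((0 : Lat m), a))) =
        ∫ y, ((act α (x a) (ind (tile σ α x0 ((0 : Lat m), a))) y : ℝ) : ℂ) *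
          ((wE W y) ^ n / (n.factorial : ℂ)) := by
      intro a
      have hS := hc ((0 : Lat m), a)
      set S := tile σ α x0 ((0 : Lat m), a) with hSdef
      have e1 : evS W (x a) * Gam W S = ∑ v ∈ (x a).coeff.support,
          PowerSeries.C (algebraMap ℚ ℂ ((x a).coeff v)) * eS (pair W v) * Gam W S := by
        rw [evS, Finsupp.sum, Finset.sum_mul]
      rw [e1, map_sum]
      have e2 : ∀ y, ((act α (x a) (ind S) y : ℝ) : ℂ) * ((wE W y) ^ n / (n.factorial : ℂ)) =
          ∑ v ∈ (x a).coeff.support, (algebraMap ℚ ℂ ((x a).coeff v)) *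
            (((ind S (y - pr α v) : ℝ) : ℂ) * ((wE W y) ^ n / (n.factorial : ℂ))) := by
        intro y
        rw [act, Finsupp.sum]
        push_cast
        rw [Finset.sum_mul]
        refine Finset.sum_congr rfl fun v _ => ?_
        simp [mul_assoc]
      rw [integral_congr_ae (Filter.Eventually.of_forall e2), integral_finsetSum]
      · refine Finset.sum_congr rfl fun v _ => ?_
        rw [coeff_mul_Gam W hS, integral_const_mul, (integral_ind W hS (pr α v) n).2, hpr]
      · intro v _
        exact (integral_ind W hS (pr α v) n).1.const_mul _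
    have h2 : ∀ a, Integrable (fun y =>
        ((act α (x a) (ind (tile σ α x0 ((0 : Lat m), a))) y : ℝ) : ℂ) *
          ((wE W y) ^ n / (n.factorial : ℂ))) := by
      intro a
      have hS := hc ((0 : Lat m), a)
      have h3 : Integrable (fun y => ∑ v ∈ (x a).coeff.support, (algebraMap ℚ ℂ ((x a).coeff v)) *
            (((ind (tile σ α x0 ((0 : Lat m), a)) (y - pr α v) : ℝ) : ℂ) *
              ((wE W y) ^ n / (n.factorial : ℂ)))) := by
        apply integrable_finsetSum
        intro v _
        exact (integral_ind W hS (pr α v) n).1.const_mul _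
      refine h3.congr (Filter.Eventually.of_forall fun y => ?_)
      simp only
      rw [act, Finsupp.sum]
      push_cast
      rw [Finset.sum_mul]
      refine Finset.sum_congr rfl fun v _ => ?_
      simp [mul_assoc]
    rw [Finset.sum_congr rfl fun a _ => h1 a, ← integral_finsetSum _ fun a _ => h2 a]
    have h3 : (fun y => ∑ a, ((act α (x a) (ind (tile σ α x0 ((0 : Lat m), a))) y : ℝ) : ℂ) *
          ((wE W y) ^ n / (n.factorial : ℂ))) =ᵐ[volume] fun _ => (0 : ℂ) := by
      filter_upwards [hx] with y hy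
      rw [← Finset.sum_mul, ← Complex.ofReal_sum, hy]
      simp
    rw [integral_congr_ae h3]
    simp

end Pool.Agent.PSC.H70
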